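import Pool.Agent.Y564.PA.Main

/-!
# The number of isomorphism types of projective algebras generated by `k` plane sets
-/

set_option autoImplicit false

namespace Pool.Agent.Results.MP_71be7b_lc.NumberOfTypes

open Pool.Agent.Y564.PA Cardinal

/-- The projective algebras generated by `k` plane sets `S₁, …, Sₖ`. -/
def GenBy (k : ℕ) : Set (Set (Set Plane)) :=
  {F | ∃ S : Fin k → Set Plane, F = gen (Set.range S)}

/-- The projective algebras generated by `k` pairwise distinct plane sets. -/
def GenByDistinct (k : ℕ) : Set (Set (Set Plane)) :=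
  {F | ∃ S : Fin k → Set Plane, Function.Injective S ∧ F = gen (Set.range S)}

/-- For every `k ≥ 1` there are exactly `2 ^ ℵ₀` isomorphism classes of projective algebras
generated by `k` subsets of the plane (whether or not the `k` sets have to be distinct). -/
theorem result (k : ℕ) (hk : 1 ≤ k) :
    #(isoClasses (GenBy k)) = 2 ^ ℵ₀ ∧ #(isoClasses (GenByDistinct k)) = 2 ^ ℵ₀ := by
  rw [Cardinal.two_power_aleph0]
  refine ⟨classes_card_eq hk (fun F h => h) (single_mem hk), classes_card_eq hk ?_ ?_⟩
  · rintro F ⟨S, -, h⟩
    exact ⟨S, h⟩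
  · exact single_mem_inj hk

end Pool.Agent.Results.MP_71be7b_lc.NumberOfTypes
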